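import Pool.Agent.Helper88.CR.Smooth

/-!
Gluing of two Borel isomorphisms of orbit equivalence relations.
-/

set_option autoImplicit false

open Set Topology Filter TopologicalSpace

namespace Pool.Agent.Helper57.CR

/-- The action on an invariant subset. -/
@[reducible] def subAct (Γ : Type) {K : Type} [Group Γ] [MulAction Γ K] (V : Set K)
    (hVg : ∀ (g : Γ), ∀ x ∈ V, g • x ∈ V) : MulAction Γ V where
  smul g x := ⟨g • x.1, hVg g x.1 x.2⟩
  one_smul x := Subtype.ext (one_smul Γ x.1)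
  mul_smul g h x := Subtype.ext (mul_smul g h x.1)

/-- The smooth part is a product. -/
theorem prod_of_transversal (Γ K : Type) [Group Γ] [Countable Γ] [MeasurableSpace K]
    [StandardBorelSpace K] [MulAction Γ K] (hmK : ∀ g : Γ, Measurable (fun x : K => g • x))
    (hinfK : ∀ x : K, (MulAction.orbit Γ x).Infinite)
    (V : Set K) (hV : MeasurableSet V) (hVg : ∀ (g : Γ), ∀ x ∈ V, g • x ∈ V)
    (T : Set K) (hT : MeasurableSet T) (hTV : T ⊆ V)
    (hT1 : ∀ x ∈ V, ∃! t, t ∈ T ∧ t ∈ MulAction.orbit Γ x) :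
    ∃ e : (T × ℕ) ≃ᵐ V, ∀ p q, ((e p : K) ∈ MulAction.orbit Γ (e q : K) ↔ p.1 = q.1) := by
  let _ : MulAction Γ V := subAct Γ V hVg
  have horb : ∀ x y : V, (y ∈ MulAction.orbit Γ x ↔ (y : K) ∈ MulAction.orbit Γ (x : K)) := by
    intro x y
    constructor
    · rintro ⟨g, rfl⟩
      exact ⟨g, rfl⟩
    · rintro ⟨g, hg⟩
      exact ⟨g, Subtype.ext hg⟩
  have : StandardBorelSpace V := hV.standardBorel
  have hm : ∀ g : Γ, Measurable (fun x : V => g • x) := fun g =>
    ((hmK g).comp measurable_subtype_coe).subtype_mk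
  have hinf : ∀ x : V, (MulAction.orbit Γ x).Infinite := by
    intro x hfin
    apply hinfK (x : K)
    have : MulAction.orbit Γ (x : K) = (fun v : V => (v : K)) '' MulAction.orbit Γ x := by
      ext y
      constructor
      · rintro ⟨g, rfl⟩
        exact ⟨g • x, ⟨g, rfl⟩, rfl⟩
      · rintro ⟨v, ⟨g, rfl⟩, rfl⟩
        exact ⟨g, rfl⟩
    rw [this]
    exact hfin.image _
  obtain ⟨e, he⟩ := Pool.Agent.Helper88.CR.smooth_product Γ V hm hinf {v : V | (v : K) ∈ T}
    (measurable_subtype_coe hT) (by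
      intro x
      obtain ⟨t, ⟨ht, hto⟩, huni⟩ := hT1 x x.2
      refine ⟨⟨t, hTV ht⟩, ⟨ht, (horb _ _).2 hto⟩, ?_⟩
      rintro s ⟨hs, hso⟩
      exact Subtype.ext (huni s ⟨hs, (horb _ _).1 hso⟩))
  -- the equivalence of the two copies of `T`
  let c : T ≃ᵐ {v : V | (v : K) ∈ T} :=
    { toFun := fun t => ⟨⟨t.1, hTV t.2⟩, t.2⟩
      invFun := fun v => ⟨v.1.1, v.2⟩
      left_inv := fun t => rfl
      right_inv := fun v => rfl
      measurable_toFun := by
        apply Measurable.subtype_mk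
        apply Measurable.subtype_mk
        exact measurable_subtype_coe
      measurable_invFun := by
        apply Measurable.subtype_mk
        exact measurable_subtype_coe.comp measurable_subtype_coe }
  refine ⟨(MeasurableEquiv.prodCongr c (MeasurableEquiv.refl ℕ)).trans e, ?_⟩
  intro p q
  have h := he ((MeasurableEquiv.prodCongr c (MeasurableEquiv.refl ℕ)) p)
    ((MeasurableEquiv.prodCongr c (MeasurableEquiv.refl ℕ)) q)
  have h2 : ((MeasurableEquiv.prodCongr c (MeasurableEquiv.refl ℕ)) p).1 =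
      ((MeasurableEquiv.prodCongr c (MeasurableEquiv.refl ℕ)) q).1 ↔ p.1 = q.1 := by
    change c p.1 = c q.1 ↔ _
    exact c.injective.eq_iff
  rw [← h2, ← h, horb]
  rfl

/-- Gluing of two Borel isomorphisms of orbit equivalence relations. -/
theorem glue (Γ K S : Type) [Group Γ] [Countable Γ] [MeasurableSpace K] [StandardBorelSpace K]
    [MeasurableSpace S] [StandardBorelSpace S] [MulAction Γ K] [MulAction Γ S]
    (hmK : ∀ g : Γ, Measurable (fun x : K => g • x))
    (hmS : ∀ g : Γ, Measurable (fun x : S => g • x))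
    (hinfK : ∀ x : K, (MulAction.orbit Γ x).Infinite)
    (hinfS : ∀ x : S, (MulAction.orbit Γ x).Infinite)
    (π : S → K) (hπ : Measurable π) (hπg : ∀ (g : Γ) (s : S), π (g • s) = g • π s)
    (V : Set K) (hV : MeasurableSet V) (hVg : ∀ (g : Γ), ∀ x ∈ V, g • x ∈ V)
    (hbij : ∀ x, x ∉ V → ∃! s, π s = x)
    (T₁ : Set K) (hT₁ : MeasurableSet T₁) (hTV₁ : T₁ ⊆ V)
    (hT₁1 : ∀ x ∈ V, ∃! t, t ∈ T₁ ∧ t ∈ MulAction.orbit Γ x) (hTi₁ : T₁.Infinite)
    (T₂ : Set S) (hT₂ : MeasurableSet T₂) (hTV₂ : T₂ ⊆ π ⁻¹' V)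
    (hT₂1 : ∀ x ∈ π ⁻¹' V, ∃! t, t ∈ T₂ ∧ t ∈ MulAction.orbit Γ x) (hTi₂ : T₂.Infinite)
    (hcount : T₁.Countable ↔ T₂.Countable) :
    ∃ e : K ≃ᵐ S, ∀ x y : K, y ∈ MulAction.orbit Γ x ↔ e y ∈ MulAction.orbit Γ (e x) := by
  classical
  have hVS : MeasurableSet (π ⁻¹' V) := hπ hV
  have hVgS : ∀ (g : Γ), ∀ x ∈ π ⁻¹' V, g • x ∈ π ⁻¹' V := by
    intro g x hx
    change π (g • x) ∈ V
    rw [hπg]
    exact hVg g _ hx
  obtain ⟨e₁, he₁⟩ := prod_of_transversal Γ K hmK hinfK V hV hVg T₁ hT₁ hTV₁ hT₁1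
  obtain ⟨e₂, he₂⟩ := prod_of_transversal Γ S hmS hinfS (π ⁻¹' V) hVS hVgS T₂ hT₂ hTV₂ hT₂1
  have : StandardBorelSpace T₁ := hT₁.standardBorel
  have : StandardBorelSpace T₂ := hT₂.standardBorel
  have : Infinite T₁ := hTi₁.to_subtype
  have : Infinite T₂ := hTi₂.to_subtype
  -- the two transversals are Borel isomorphic
  have hTT : Nonempty (T₁ ≃ᵐ T₂) := by
    by_cases hc : T₁.Countable
    · have hc2 := hcount.1 hc
      have : Countable T₁ := hc.to_subtype
      have : Countable T₂ := hc2.to_subtype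
      obtain ⟨f⟩ := nonempty_equiv_of_countable (α := T₁) (β := T₂)
      exact ⟨⟨f, measurable_of_countable _, measurable_of_countable _⟩⟩
    · have hc2 : ¬ T₂.Countable := fun h => hc (hcount.2 h)
      exact ⟨PolishSpace.measurableEquivOfNotCountable
        (fun h => hc (Set.countable_coe_iff.1 h)) (fun h => hc2 (Set.countable_coe_iff.1 h))⟩
  obtain ⟨τ⟩ := hTT
  -- the isomorphism on the smooth part
  let eV : V ≃ᵐ (π ⁻¹' V) :=
    (e₁.symm.trans (MeasurableEquiv.prodCongr τ (MeasurableEquiv.refl ℕ))).trans e₂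
  have heV : ∀ x y : V, ((y : K) ∈ MulAction.orbit Γ (x : K) ↔
      (eV y : S) ∈ MulAction.orbit Γ (eV x : S)) := by
    intro x y
    have h1 := he₁ (e₁.symm y) (e₁.symm x)
    rw [e₁.apply_symm_apply, e₁.apply_symm_apply] at h1
    have h2 := he₂ ((MeasurableEquiv.prodCongr τ (MeasurableEquiv.refl ℕ)) (e₁.symm y))
      ((MeasurableEquiv.prodCongr τ (MeasurableEquiv.refl ℕ)) (e₁.symm x))
    rw [h1]
    refine Iff.trans ?_ h2.symm
    change _ ↔ τ (e₁.symm y).1 = τ (e₁.symm x).1
    exact τ.injective.eq_iff.symm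
  -- the isomorphism on the complement
  have : StandardBorelSpace (Vᶜ : Set K) := hV.compl.standardBorel
  have : StandardBorelSpace ((π ⁻¹' V)ᶜ : Set S) := hVS.compl.standardBorel
  let ρ : ((π ⁻¹' V)ᶜ : Set S) → (Vᶜ : Set K) := fun s => ⟨π s.1, s.2⟩
  have hρm : Measurable ρ := (hπ.comp measurable_subtype_coe).subtype_mk
  have hρb : Function.Bijective ρ := by
    constructor
    · intro s t hst
      have h : π s.1 = π t.1 := congrArg Subtype.val hst
      obtain ⟨u, _, hu⟩ := hbij (π s.1) s.2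
      exact Subtype.ext ((hu s.1 rfl).trans (hu t.1 h.symm).symm)
    · intro x
      obtain ⟨u, hu, _⟩ := hbij x.1 x.2
      refine ⟨⟨u, ?_⟩, Subtype.ext hu⟩
      change π u ∉ V
      rw [hu]
      exact x.2
  have hρe : MeasurableEmbedding ρ := hρm.measurableEmbedding hρb.1
  let eC : ((π ⁻¹' V)ᶜ : Set S) ≃ᵐ (Vᶜ : Set K) :=
    { Equiv.ofBijective ρ hρb with
      measurable_toFun := hρm
      measurable_invFun := by
        intro s hs
        have : (Equiv.ofBijective ρ hρb).invFun ⁻¹' s = ρ '' s := by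
          ext y
          constructor
          · intro hy
            exact ⟨_, hy, (Equiv.ofBijective ρ hρb).apply_symm_apply y⟩
          · rintro ⟨z, hz, rfl⟩
            change (Equiv.ofBijective ρ hρb).symm (ρ z) ∈ s
            have : (Equiv.ofBijective ρ hρb).symm (ρ z) = z :=
              (Equiv.ofBijective ρ hρb).symm_apply_apply z
            rw [this]
            exact hz
        change MeasurableSet ((Equiv.ofBijective ρ hρb).invFun ⁻¹' s)
        rw [this]
        exact hρe.measurableSet_image.2 hs }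
  have heC : ∀ x : (Vᶜ : Set K), π (eC.symm x : S) = x := by
    intro x
    have := eC.apply_symm_apply x
    exact congrArg Subtype.val this
  let e : K ≃ᵐ S := ((MeasurableEquiv.sumCompl hV).symm.trans
    (MeasurableEquiv.sumCongr eV eC.symm)).trans (MeasurableEquiv.sumCompl hVS)
  have he1 : ∀ (x : K) (hx : x ∈ V), e x = eV ⟨x, hx⟩ := by
    intro x hx
    have h : (MeasurableEquiv.sumCompl hV).symm x = Sum.inl ⟨x, hx⟩ := by
      rw [MeasurableEquiv.symm_apply_eq]
      rfl
    change (MeasurableEquiv.sumCompl hVS) ((MeasurableEquiv.sumCongr eV eC.symm)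
      ((MeasurableEquiv.sumCompl hV).symm x)) = _
    rw [h]
    rfl
  have he2 : ∀ (x : K) (hx : x ∉ V), e x = eC.symm ⟨x, hx⟩ := by
    intro x hx
    have h : (MeasurableEquiv.sumCompl hV).symm x = Sum.inr ⟨x, hx⟩ := by
      rw [MeasurableEquiv.symm_apply_eq]
      rfl
    change (MeasurableEquiv.sumCompl hVS) ((MeasurableEquiv.sumCongr eV eC.symm)
      ((MeasurableEquiv.sumCompl hV).symm x)) = _
    rw [h]
    rfl
  have hVo : ∀ x y : K, y ∈ MulAction.orbit Γ x → (x ∈ V ↔ y ∈ V) := by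
    rintro x y ⟨g, rfl⟩
    constructor
    · exact fun h => hVg g x h
    · intro h
      have := hVg g⁻¹ _ h
      simpa using this
  refine ⟨e, fun x y => ?_⟩
  by_cases hx : x ∈ V
  · by_cases hy : y ∈ V
    · rw [he1 x hx, he1 y hy]
      exact heV ⟨x, hx⟩ ⟨y, hy⟩
    · constructor
      · intro h
        exact absurd ((hVo x y h).1 hx) hy
      · rintro ⟨g, hg⟩
        exfalso
        apply hy
        have h1 : π (e y) = y := by rw [he2 y hy]; exact heC ⟨y, hy⟩
        have h2 : π (e x) ∈ V := by rw [he1 x hx]; exact (eV ⟨x, hx⟩).2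
        rw [← h1, ← hg, hπg]
        exact hVg g _ h2
  · have hπx : π (e x) = x := by rw [he2 x hx]; exact heC ⟨x, hx⟩
    by_cases hy : y ∈ V
    · constructor
      · intro h
        exact absurd ((hVo x y h).2 hy) hx
      · rintro ⟨g, hg⟩
        exfalso
        apply hx
        have h2 : π (e y) ∈ V := by rw [he1 y hy]; exact (eV ⟨y, hy⟩).2
        rw [← hg] at h2
        change π (g • e x) ∈ V at h2
        rw [hπg, hπx] at h2
        exact (hVo x _ ⟨g, rfl⟩).2 h2
    · have hπy : π (e y) = y := by rw [he2 y hy]; exact heC ⟨y, hy⟩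
      constructor
      · rintro ⟨g, hg⟩
        refine ⟨g, ?_⟩
        obtain ⟨u, _, hu⟩ := hbij y hy
        rw [hu (e y) hπy]
        apply hu
        change π (g • e x) = y
        rw [hπg, hπx]
        exact hg
      · rintro ⟨g, hg⟩
        refine ⟨g, ?_⟩
        rw [← hπy, ← hg]
        change g • x = π (g • e x)
        rw [hπg, hπx]

end Pool.Agent.Helper57.CR
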